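import Mathlib

set_option autoImplicit false

namespace Pool.Agent.Results.MP_43f51c_co.Disproof

/-- The middle graph, on vertices and edges of `G`. -/
def middle {V : Type} (G : SimpleGraph V) : SimpleGraph (V ⊕ G.edgeSet) where
  Adj x y :=
    match x, y with
    | .inl _, .inl _ => False
    | .inl v, .inr e => v ∈ e.1
    | .inr e, .inl v => v ∈ e.1
    | .inr e, .inr f => e ≠ f ∧ ∃ v, v ∈ e.1 ∧ v ∈ f.1
  symm := ⟨by
    rintro (v | e) (w | f) h
    · exact h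
    · exact h
    · exact h
    · exact ⟨h.1.symm, h.2.imp fun _ hv => hv.symm⟩⟩
  loopless := ⟨by
    rintro (v | e) h
    · exact h
    · exact h.1 rfl⟩

/-- Outer-connected dominating sets. -/
def IsOCD {V : Type} (G : SimpleGraph V) (S : Finset V) : Prop :=
  (∀ v, v ∈ S ∨ ∃ u ∈ S, G.Adj v u) ∧ (G.induce {v | v ∉ S}).Connected

/-- The outer-connected domination number. -/
noncomputable def gammaOC {V : Type} (G : SimpleGraph V) : ℕ :=
  sInf {k | ∃ S : Finset V, S.card = k ∧ IsOCD G S}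

lemma conn_of_rank {W : Type} (H : SimpleGraph W) (S : Finset W) (r : W) (hr : r ∉ S)
    (ρ : W → ℕ) (h : ∀ x, x ∉ S → x = r ∨ ∃ y, y ∉ S ∧ H.Adj x y ∧ ρ y < ρ x) :
    (H.induce {v | v ∉ S}).Connected := by
  have key : ∀ n (x : W) (hx : x ∉ S), ρ x < n →
      (H.induce {v | v ∉ S}).Reachable ⟨x, hx⟩ ⟨r, hr⟩ := by
    intro n
    induction n with
    | zero => intro x hx h0; omega
    | succ n ih =>
      intro x hx h0
      rcases h x hx with rfl | ⟨y, hy, ha, hl⟩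
      · rfl
      · exact (SimpleGraph.Adj.reachable (G := H.induce {v | v ∉ S}) (u := ⟨x, hx⟩)
          (v := ⟨y, hy⟩) ha).trans (ih y hy (by omega))
  have : Nonempty {v | v ∉ S} := ⟨⟨r, hr⟩⟩
  exact ⟨fun x y => (key _ x.1 x.2 (Nat.lt_succ_self _)).trans
    (key _ y.1 y.2 (Nat.lt_succ_self _)).symm⟩

lemma not_conn {W : Type} (H : SimpleGraph W) (S A : Finset W) (a b : W) (ha : a ∈ A)
    (ha' : a ∉ S) (hb : b ∉ A) (hb' : b ∉ S)
    (h : ∀ x ∈ A, ∀ y, H.Adj x y → y ∉ S → y ∈ A) : ¬ (H.induce {v | v ∉ S}).Connected := by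
  intro hc
  obtain ⟨p⟩ := hc.preconnected ⟨a, ha'⟩ ⟨b, hb'⟩
  have : ∀ (x y : {v | v ∉ S}) (_ : (H.induce {v | v ∉ S}).Walk x y), x.1 ∈ A → y.1 ∈ A := by
    intro x y q
    induction q with
    | nil => exact id
    | @cons u v w hadj q ih => exact fun hx => ih (h _ hx _ hadj v.2)
  exact hb (this _ _ p ha)

def EL : List (Fin 8 × Fin 8) :=
  [(0, 1), (0, 2), (0, 3), (2, 3), (0, 4), (1, 4), (0, 5), (3, 5), (3, 6), (3, 7), (6, 7)]

def G0 : SimpleGraph (Fin 8) where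
  Adj x y := (x, y) ∈ EL ∨ (y, x) ∈ EL
  symm := ⟨fun _ _ h => h.symm⟩
  loopless := ⟨by decide +kernel⟩

instance : DecidableRel G0.Adj := fun x y =>
  inferInstanceAs (Decidable ((x, y) ∈ EL ∨ (y, x) ∈ EL))

instance : DecidableRel (middle G0).Adj := fun x y =>
  match x, y with
  | .inl _, .inl _ => inferInstanceAs (Decidable False)
  | .inl v, .inr e => inferInstanceAs (Decidable (v ∈ e.1))
  | .inr e, .inl v => inferInstanceAs (Decidable (v ∈ e.1))
  | .inr e, .inr f => inferInstanceAs (Decidable (e ≠ f ∧ ∃ v, v ∈ e.1 ∧ v ∈ f.1))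

def SM : Finset (Fin 8 ⊕ G0.edgeSet) :=
  {.inr ⟨s(0, 2), by decide +kernel⟩, .inr ⟨s(1, 4), by decide +kernel⟩,
    .inr ⟨s(3, 5), by decide +kernel⟩, .inr ⟨s(6, 7), by decide +kernel⟩}

def rk : Fin 8 ⊕ G0.edgeSet → ℕ
  | .inl v => if v = 0 then 0 else 3
  | .inr e => if (0 : Fin 8) ∈ e.1 then 1 else 2

lemma upper : gammaOC (middle G0) ≤ 4 :=
  Nat.sInf_le ⟨SM, by decide +kernel, by decide +kernel,
    conn_of_rank _ SM (.inl 0) (by decide +kernel) rk (by decide +kernel)⟩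

set_option synthInstance.maxSize 4000 in
lemma low0 : ∀ S : Finset (Fin 8), S.card ≤ 3 → (∀ v, v ∈ S ∨ ∃ u ∈ S, G0.Adj v u) →
    ∃ A : Finset (Fin 8), (∀ x ∈ A, ∀ y, G0.Adj x y → y ∉ S → y ∈ A) ∧
      (∃ a ∈ A, a ∉ S) ∧ ∃ b, b ∉ A ∧ b ∉ S := by decide +kernel

lemma lower : 4 ≤ gammaOC G0 := by
  have hne : {k | ∃ S : Finset (Fin 8), S.card = k ∧ IsOCD G0 S}.Nonempty :=
    ⟨_, {1, 2, 3, 4, 5, 6, 7}, rfl, by decide +kernel,
      conn_of_rank _ _ 0 (by decide +kernel) (fun _ => 0) (by decide +kernel)⟩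
  obtain ⟨S, h1, h2, h3⟩ := Nat.sInf_mem hne
  by_contra hlt
  obtain ⟨A, a1, ⟨a, a2, a3⟩, b, b1, b2⟩ := low0 S (by unfold gammaOC at hlt; omega) h2
  exact not_conn G0 S A a b a2 a3 b1 b2 a1 h3

theorem result :
    ∃ (V : Type) (_ : Fintype V) (G : SimpleGraph V), G.Connected ∧ 2 ≤ Fintype.card V ∧
      (∃ S, IsOCD (middle G) S) ∧ (∃ S, IsOCD G S) ∧ gammaOC (middle G) ≤ gammaOC G := by
  refine ⟨Fin 8, inferInstance, G0, ?_, by simp, ⟨SM, by decide +kernel,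
    conn_of_rank _ SM (.inl 0) (by decide +kernel) rk (by decide +kernel)⟩,
    ⟨{1, 2, 3, 4, 5, 6, 7}, by decide +kernel,
      conn_of_rank _ _ 0 (by decide +kernel) (fun _ => 0) (by decide +kernel)⟩,
    upper.trans lower⟩
  have h : ∀ v, G0.Reachable 0 v := by
    have a : ∀ u v, G0.Adj u v → G0.Reachable u v := fun _ _ h => h.reachable
    intro v
    fin_cases v
    · rfl
    · exact a 0 1 (by decide)
    · exact a 0 2 (by decide)
    · exact a 0 3 (by decide)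
    · exact a 0 4 (by decide)
    · exact a 0 5 (by decide)
    · exact (a 0 3 (by decide)).trans (a 3 6 (by decide))
    · exact (a 0 3 (by decide)).trans (a 3 7 (by decide))
  exact ⟨fun u v => (h u).symm.trans (h v)⟩

end Pool.Agent.Results.MP_43f51c_co.Disproof
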